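import Pool.Agent.N818.SN.Stm
import Pool.Agent.Y676.IS.Alg4

/-!
# Project SN, parts MIN and TO: minimality and torsion (helper87)
-/

set_option autoImplicit false

namespace Pool.Agent.N87.SN

open WeierstrassCurve
open Pool.Agent.N818.SN
open Pool.Agent.Y676.IS (Cu cu_ns ns_eq Dat isoF isoF_zero isoF_x0 isoF_some TT T_add_T isT_of_x0
  dbl ker)
open Pool.Agent.Y700 (VR)

/-! ### Minimality -/

theorem minimal_of {W : WeierstrassCurve ℤ} (h0 : W.Δ ≠ 0)
    (hp : ∀ p : ℕ, p.Prime → ¬ ((p : ℤ) ^ 12 ∣ W.Δ)) : Minimal W := by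
  refine ⟨h0, fun W' C h => ?_⟩
  have h1 := congrArg WeierstrassCurve.Δ h
  rw [WeierstrassCurve.variableChange_Δ, WeierstrassCurve.map_Δ, WeierstrassCurve.map_Δ] at h1
  simp only [eq_intCast] at h1
  obtain ⟨q, hq⟩ : ∃ q : ℚ, q = ((C.u⁻¹ : ℚˣ) : ℚ) := ⟨_, rfl⟩
  rw [← hq] at h1
  have hq0 : q ≠ 0 := by rw [hq]; exact Units.ne_zero _
  have hnd : q * q.den = q.num := Rat.mul_den_eq_num q
  have h2 : (q.num : ℚ) ^ 12 * (W.Δ : ℚ) = (W'.Δ : ℚ) * (q.den : ℚ) ^ 12 := by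
    rw [← h1, ← hnd]
    ring
  have h3 : q.num ^ 12 * W.Δ = W'.Δ * (q.den : ℤ) ^ 12 := by exact_mod_cast h2
  have hcop0 : IsCoprime ((q.den : ℤ)) (q.num) := by
    rw [Int.isCoprime_iff_gcd_eq_one, Int.gcd_comm]
    exact q.reduced
  have hcop : IsCoprime ((q.den : ℤ) ^ 12) (q.num ^ 12) := IsCoprime.pow hcop0
  have h5 : (q.den : ℤ) ^ 12 ∣ W.Δ :=
    hcop.dvd_of_dvd_mul_left ⟨W'.Δ, by rw [h3]; ring⟩
  have h8 : q.den = 1 := by
    by_contra hne
    obtain ⟨r, hr, hrd⟩ := Nat.exists_prime_and_dvd hne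
    exact hp r hr ((pow_dvd_pow_of_dvd (by exact_mod_cast hrd) 12).trans h5)
  rw [h8] at h3
  have h9 : W'.Δ = q.num ^ 12 * W.Δ := by rw [h3]; simp
  rw [h9, abs_mul]
  have h10 : 1 ≤ |q.num ^ 12| := by
    apply Int.one_le_abs
    exact pow_ne_zero _ (Rat.num_ne_zero.2 hq0)
  nlinarith [abs_nonneg W.Δ]

lemma nd {n : ℕ} (hn : Fm n) {c : ℕ} (hc0 : 0 < c) (hc : c < 4096)
    (hc' : ∀ p : ℕ, p.Prime → p ∣ c → p = 2 ∨ p = 3) {p : ℕ} (hp : p.Prime) :
    ¬ p ^ 12 ∣ c * n ^ 6 := by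
  intro h
  obtain ⟨hs, hm⟩ := hn
  by_cases hpn : p ∣ n
  · have hpc : ¬ p ∣ c := by
      intro hpc
      rcases hc' p hp hpc with rfl | rfl <;> omega
    have h1 : Nat.Coprime (p ^ 12) c := Nat.Coprime.pow_left 12 ((Nat.Prime.coprime_iff_not_dvd hp).2 hpc)
    have h2 : p ^ 12 ∣ n ^ 6 := h1.dvd_of_dvd_mul_left h
    have h3 : (p ^ 2) ^ 6 ∣ n ^ 6 := by rw [← pow_mul]; exact h2
    have h4 : p ^ 2 ∣ n := (Nat.pow_dvd_pow_iff (by norm_num)).1 h3
    rw [pow_two] at h4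
    exact hp.one_lt.ne' (Nat.isUnit_iff.1 (hs p h4))
  · have h1 : Nat.Coprime (p ^ 12) (n ^ 6) :=
      Nat.Coprime.pow 12 6 ((Nat.Prime.coprime_iff_not_dvd hp).2 hpn)
    have h2 : p ^ 12 ∣ c := h1.dvd_of_dvd_mul_right h
    have h3 := Nat.le_of_dvd hc0 h2
    have h4 : 2 ^ 12 ≤ p ^ 12 := Nat.pow_le_pow_left hp.two_le 12
    norm_num at h4
    omega

lemma delta_WB (n : ℕ) : (WB n).Δ = -((48 * n ^ 6 : ℕ) : ℤ) := by
  simp only [WB, WeierstrassCurve.Δ, WeierstrassCurve.b₂, WeierstrassCurve.b₄,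
    WeierstrassCurve.b₆, WeierstrassCurve.b₈]
  push_cast
  ring

lemma delta_WC (n : ℕ) : (WC n).Δ = ((3072 * n ^ 6 : ℕ) : ℤ) := by
  simp only [WC, WeierstrassCurve.Δ, WeierstrassCurve.b₂, WeierstrassCurve.b₄,
    WeierstrassCurve.b₆, WeierstrassCurve.b₈]
  push_cast
  ring

/-- **Project SN, MIN.** -/
theorem t_MIN : Pool.Agent.N818.SN.S_MIN := by
  intro n hn
  have hn0 : n ≠ 0 := by
    obtain ⟨-, hm⟩ := hn
    rintro rfl
    omega
  constructor
  · refine minimal_of ?_ fun p hp h => ?_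
    · rw [delta_WB, neg_ne_zero]
      exact_mod_cast mul_ne_zero (by norm_num) (pow_ne_zero 6 hn0)
    · rw [delta_WB, dvd_neg] at h
      have h1 : p ^ 12 ∣ 48 * n ^ 6 := by exact_mod_cast h
      refine nd hn (by norm_num) (by norm_num) (fun r hr hrc => ?_) hp h1
      have h2 : r ∣ 2 ^ 4 * 3 := by norm_num; exact hrc
      rcases hr.dvd_mul.1 h2 with h3 | h3
      · left
        exact (Nat.prime_dvd_prime_iff_eq hr Nat.prime_two).1 (hr.dvd_of_dvd_pow h3)
      · right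
        exact (Nat.prime_dvd_prime_iff_eq hr Nat.prime_three).1 h3
  · refine minimal_of ?_ fun p hp h => ?_
    · rw [delta_WC]
      exact_mod_cast mul_ne_zero (by norm_num) (pow_ne_zero 6 hn0)
    · rw [delta_WC] at h
      have h1 : p ^ 12 ∣ 3072 * n ^ 6 := by exact_mod_cast h
      refine nd hn (by norm_num) (by norm_num) (fun r hr hrc => ?_) hp h1
      have h2 : r ∣ 2 ^ 10 * 3 := by norm_num; exact hrc
      rcases hr.dvd_mul.1 h2 with h3 | h3
      · left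
        exact (Nat.prime_dvd_prime_iff_eq hr Nat.prime_two).1 (hr.dvd_of_dvd_pow h3)
      · right
        exact (Nat.prime_dvd_prime_iff_eq hr Nat.prime_three).1 h3

/-! ### Torsion -/

section

variable {a b a' b' u u' : ℚ}

lemma TT_ne (hb : b ≠ 0) (hd : a ^ 2 - 4 * b ≠ 0) : TT hb hd ≠ 0 := Affine.Point.some_ne_zero _

lemma iso_pow (h : Dat a b a' b' u) (h' : Dat a' b' a b u') (huu : u * u' = 2) (j : ℕ)
    (P : (Cu a b).Point) : isoF h (2 ^ j • P) = 2 ^ j • isoF h P := by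
  induction j generalizing P with
  | zero => rw [pow_zero, one_nsmul, one_nsmul]
  | succ j ih =>
    have e1 : ∀ {G : Type} [AddCommGroup G] (x : G), 2 ^ (j + 1) • x = 2 ^ j • (x + x) := by
      intro G _ x
      rw [pow_succ, mul_nsmul', two_nsmul]
    rw [e1, e1, ih, ← dbl h h' huu P, ← dbl h' h (by rw [mul_comm]; exact huu) (isoF h P)]

lemma odd_nsmul_TT (hb : b ≠ 0) (hd : a ^ 2 - 4 * b ≠ 0) {m : ℕ} (hm : Odd m) :
    m • TT hb hd = TT hb hd := by
  obtain ⟨k, rfl⟩ := hm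
  rw [add_nsmul, mul_comm, mul_nsmul', two_nsmul, T_add_T, one_nsmul]
  simp

lemma odd_zero (h : Dat a b a' b' u) (h' : Dat a' b' a b u') (huu : u * u' = 2)
    (H1 : ∀ (P : (Cu a' b').Point) (m : ℕ), Odd m → m • P = 0 → P = 0)
    {Q : (Cu a b).Point} {m : ℕ} (hm : Odd m) (hQ : m • Q = 0) : Q = 0 := by
  have hcop : Nat.Coprime 2 m := Nat.coprime_two_left.2 hm
  have hm0 : 0 < m := hm.pos
  obtain ⟨j, hj1, hj⟩ : ∃ j, 1 ≤ j ∧ m ∣ 2 ^ j - 1 :=
    ⟨Nat.totient m, Nat.totient_pos.2 hm0,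
      (Nat.modEq_iff_dvd' (Nat.one_le_two_pow)).1 (Nat.ModEq.pow_totient hcop).symm⟩
  obtain ⟨c, hc⟩ := hj
  have h2j : 1 ≤ 2 ^ j := Nat.one_le_two_pow
  have e1 : 2 ^ j • Q = Q := by
    have : 2 ^ j = c * m + 1 := by
      have : m * c = c * m := mul_comm _ _
      omega
    rw [this, add_nsmul, one_nsmul, mul_nsmul', hQ]
    simp
  have e2 := iso_pow h h' huu j Q
  rw [e1] at e2
  have e3 : (2 ^ j - 1) • isoF h Q = 0 := by
    have e4 : 2 ^ j • isoF h Q = (2 ^ j - 1) • isoF h Q + isoF h Q := by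
      conv_lhs => rw [← Nat.sub_add_cancel h2j, add_nsmul, one_nsmul]
    rw [← e2] at e4
    exact (add_eq_right.1 e4.symm)
  have hodd : Odd (2 ^ j - 1) := by
    obtain ⟨i, rfl⟩ : ∃ i, j = i + 1 := ⟨j - 1, by omega⟩
    refine ⟨2 ^ i - 1, ?_⟩
    have : 1 ≤ 2 ^ i := Nat.one_le_two_pow
    rw [pow_succ]
    omega
  have e4 := H1 _ _ hodd e3
  rcases ker h Q e4 with h5 | h5
  · exact h5
  · exfalso
    rw [h5, odd_nsmul_TT _ _ hm] at hQ
    exact TT_ne _ _ hQ

lemma two_tors (hb : b ≠ 0) (hd : a ^ 2 - 4 * b ≠ 0) (hns : ¬ IsSquare (a ^ 2 - 4 * b))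
    {P : (Cu a b).Point} (hP : P + P = 0) : P = 0 ∨ P = TT hb hd := by
  rcases P with _ | ⟨x, y, hxy⟩
  · exact Or.inl rfl
  · by_cases hx : x = 0
    · exact Or.inr (isT_of_x0 hb hd hxy hx)
    · exfalso
      rw [add_eq_zero_iff_eq_neg, Affine.Point.neg_some] at hP
      injection hP with _ hy
      have a1 : (Cu a b).a₁ = 0 := rfl
      have a3 : (Cu a b).a₃ = 0 := rfl
      rw [Affine.negY, a1, a3] at hy
      have hy0 : y = 0 := by linarith
      have e0 := ns_eq hxy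
      rw [hy0] at e0
      have e1 : x * (x ^ 2 + a * x + b) = 0 := by linear_combination -e0
      have e2 := (mul_eq_zero.1 e1).resolve_left hx
      exact hns ⟨2 * x + a, by linear_combination -4 * e2⟩

lemma no_half (h : Dat a b a' b' u) (h' : Dat a' b' a b u') (huu : u * u' = 2) {n : ℚ}
    (hn : n ≠ 0) (hbn : b = n ^ 2) (h1 : ¬ IsSquare (a + 2 * n)) (h2 : ¬ IsSquare (a - 2 * n))
    (P : (Cu a b).Point) : P + P ≠ TT h.hb h.hd := by
  intro hP
  rcases P with _ | ⟨x, y, hxy⟩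
  · change (0 : (Cu a b).Point) + 0 = _ at hP
    rw [add_zero] at hP
    exact TT_ne _ _ hP.symm
  · by_cases hx : x = 0
    · rw [isT_of_x0 h.hb h.hd hxy hx, T_add_T] at hP
      exact TT_ne _ _ hP.symm
    · rw [← dbl h h' huu, isoF_some h _ hx] at hP
      have hu := h.hu
      have hu' := h'.hu
      by_cases hX : y ^ 2 / (u ^ 2 * x ^ 2) = 0
      · rw [isoF_x0 h' _ hX] at hP
        exact TT_ne _ _ hP.symm
      · rw [isoF_some h' _ hX] at hP
        unfold TT at hP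
        injection hP with e1 _
        have hy : y ≠ 0 := by
          rintro rfl
          apply hX
          simp
        have e2 : (y * (b - x ^ 2) / (u ^ 3 * x ^ 2)) ^ 2 = 0 := by
          rcases div_eq_zero_iff.1 e1 with e | e
          · exact e
          · exact absurd e (mul_ne_zero (pow_ne_zero 2 hu') (pow_ne_zero 2 hX))
        have e3 : y * (b - x ^ 2) / (u ^ 3 * x ^ 2) = 0 := pow_eq_zero_iff (two_ne_zero) |>.1 e2
        have e4 : y * (b - x ^ 2) = 0 := by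
          rcases div_eq_zero_iff.1 e3 with e | e
          · exact e
          · exact absurd e (mul_ne_zero (pow_ne_zero 3 hu) (pow_ne_zero 2 hx))
        have e5 := (mul_eq_zero.1 e4).resolve_left hy
        rw [hbn] at e5
        have e6 : (n - x) * (n + x) = 0 := by linear_combination e5
        have e0 := ns_eq hxy
        rw [hbn] at e0
        rcases mul_eq_zero.1 e6 with e7 | e7
        · have hxn : x = n := by linarith
          rw [hxn] at e0
          refine h1 ⟨y / n, ?_⟩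
          field_simp
          linear_combination -e0
        · have hxn : x = -n := by linarith
          rw [hxn] at e0
          refine h2 ⟨y / n, ?_⟩
          field_simp
          linear_combination -e0

lemma tors_two (h : Dat a b a' b' u) (h' : Dat a' b' a b u') (huu : u * u' = 2) {n : ℚ}
    (hn : n ≠ 0) (hbn : b = n ^ 2) (h1 : ¬ IsSquare (a + 2 * n)) (h2 : ¬ IsSquare (a - 2 * n))
    (hns : ¬ IsSquare (a ^ 2 - 4 * b))
    (H1 : ∀ (P : (Cu a' b').Point) (m : ℕ), Odd m → m • P = 0 → P = 0)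
    {P : (Cu a b).Point} {m : ℕ} (hm : m ≠ 0) (hP : m • P = 0) : P = 0 ∨ P = TT h.hb h.hd := by
  obtain ⟨k, l, hl, rfl⟩ := Nat.exists_eq_two_pow_mul_odd hm
  rw [mul_comm, mul_nsmul'] at hP
  have e1 : 2 ^ k • P = 0 := by
    exact odd_zero h h' huu H1 hl hP
  clear hP
  induction k generalizing P with
  | zero =>
    rw [pow_zero, one_nsmul] at e1
    exact Or.inl e1
  | succ k ih =>
    have e2 : 2 ^ k • (P + P) = 0 := by
      rw [← two_nsmul, smul_smul, ← pow_succ]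
      exact e1
    rcases ih (by
      have := hl.pos
      positivity) e2 with e3 | e3
    · exact two_tors h.hb h.hd hns e3
    · exact absurd e3 (no_half h h' huu hn hbn h1 h2 P)

end

lemma card_tors {G H : Type} [AddCommGroup G] [AddCommGroup H] (e : H ≃+ G) (T : H) (hT : T ≠ 0)
    (hTT : T + T = 0) (h : ∀ (P : H) (m : ℕ), m ≠ 0 → m • P = 0 → P = 0 ∨ P = T) :
    Nat.card (AddCommGroup.torsion G) = 2 := by
  rw [Nat.card_eq_two_iff]
  have hmem : e T ∈ AddCommGroup.torsion G := by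
    show IsOfFinAddOrder (e T)
    rw [isOfFinAddOrder_iff_nsmul_eq_zero]
    refine ⟨2, by norm_num, ?_⟩
    rw [two_nsmul, ← map_add, hTT, map_zero]
  refine ⟨0, ⟨e T, hmem⟩, ?_, ?_⟩
  · intro h0
    have h1 := congrArg Subtype.val h0
    change (0 : G) = e T at h1
    exact hT (e.injective (by rw [← h1, map_zero]))
  · ext z
    simp only [Set.mem_insert_iff, Set.mem_singleton_iff, Set.mem_univ, iff_true]
    obtain ⟨z, hz⟩ := z
    have hz' : IsOfFinAddOrder z := hz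
    rw [isOfFinAddOrder_iff_nsmul_eq_zero] at hz'
    obtain ⟨m, hm, hmz⟩ := hz'
    have h1 : m • e.symm z = 0 := by rw [← map_nsmul, hmz, map_zero]
    rcases h _ m hm.ne' h1 with h2 | h2
    · left
      apply Subtype.ext
      show z = 0
      rw [← e.apply_symm_apply z, h2, map_zero]
    · right
      apply Subtype.ext
      show z = e T
      rw [← h2, e.apply_symm_apply]

lemma odd_WA {n : ℕ} (h : torsOrder (WA n) = 4) (P : (base (WA n) ℚ).toAffine.Point) {m : ℕ}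
    (hm : Odd m) (hP : m • P = 0) : P = 0 := by
  unfold torsOrder at h
  have hmem : P ∈ AddCommGroup.torsion (base (WA n) ℚ).toAffine.Point := by
    show IsOfFinAddOrder P
    rw [isOfFinAddOrder_iff_nsmul_eq_zero]
    exact ⟨m, hm.pos, hP⟩
  obtain ⟨P', hP'⟩ : ∃ P' : AddCommGroup.torsion (base (WA n) ℚ).toAffine.Point, P' = ⟨P, hmem⟩ :=
    ⟨_, rfl⟩
  have h1 : addOrderOf P' ∣ 4 := by rw [← h]; exact addOrderOf_dvd_natCard P'
  have h2 : addOrderOf P' ∣ m := by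
    apply addOrderOf_dvd_of_nsmul_eq_zero
    rw [hP']
    exact Subtype.ext hP
  have h3 : Nat.Coprime 4 m := by
    have : Nat.Coprime (2 ^ 2) m := Nat.Coprime.pow_left 2 (Nat.coprime_two_left.2 hm)
    exact this
  have h4 : addOrderOf P' = 1 := Nat.dvd_one.1 (h3 ▸ Nat.dvd_gcd h1 h2)
  have h5 : P' = 0 := AddMonoid.addOrderOf_eq_one_iff.1 h4
  rw [hP'] at h5
  exact congrArg Subtype.val h5

lemma cu_delta (a b : ℚ) : (Cu a b).Δ = 16 * b ^ 2 * (a ^ 2 - 4 * b) := by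
  simp only [Cu, WeierstrassCurve.Δ, WeierstrassCurve.b₂, WeierstrassCurve.b₄,
    WeierstrassCurve.b₆, WeierstrassCurve.b₈]
  ring

lemma cu_delta_ne {a b : ℚ} (hb : b ≠ 0) (hd : a ^ 2 - 4 * b ≠ 0) : (Cu a b).Δ ≠ 0 := by
  rw [cu_delta]
  exact mul_ne_zero (mul_ne_zero (by norm_num) (pow_ne_zero 2 hb)) hd

/-- **Project SN, TO.** -/
theorem t_TO : Pool.Agent.N818.SN.S_TO := by
  intro n hn h4
  obtain ⟨hs, hm⟩ := hn
  have hn0 : 0 < n := by
    rcases Nat.eq_zero_or_pos n with rfl | h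
    · omega
    · exact h
  have hq : (0 : ℚ) < n := by exact_mod_cast hn0
  have hq0 : (n : ℚ) ≠ 0 := hq.ne'
  have h3n : ¬ IsSquare (3 * (n : ℚ)) := by
    intro h
    have h1 : IsSquare (((3 * n : ℕ) : ℚ)) := by push_cast; exact h
    rw [Rat.isSquare_natCast_iff] at h1
    obtain ⟨r, hr⟩ := h1
    have h2 : 3 ∣ r * r := ⟨n, hr.symm⟩
    have h3 : 3 ∣ r := by
      rcases (Nat.Prime.dvd_mul Nat.prime_three).1 h2 with h | h <;> exact h
    obtain ⟨t, rfl⟩ := h3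
    have h5 : n = 3 * (t * t) := by nlinarith
    omega
  have h3 : ¬ IsSquare (3 : ℚ) := by
    intro h
    have h1 : IsSquare (((3 : ℕ) : ℚ)) := by push_cast; exact h
    rw [Rat.isSquare_natCast_iff] at h1
    obtain ⟨r, hr⟩ := h1
    have : r < 2 := by nlinarith
    interval_cases r <;> omega
  have hneg : ∀ x : ℚ, x < 0 → ¬ IsSquare x := fun x hx h => by
    have := h.nonneg
    linarith
  constructor
  · -- `WB n`
    have hD : Dat (n : ℚ) ((n : ℚ) ^ 2) (-2 * n) (-3 * (n : ℚ) ^ 2) 1 :=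
      ⟨pow_ne_zero 2 hq0, mul_ne_zero (by norm_num) (pow_ne_zero 2 hq0), one_ne_zero, by ring,
        by ring⟩
    have hD' : Dat (-2 * (n : ℚ)) (-3 * (n : ℚ) ^ 2) n ((n : ℚ) ^ 2) 2 :=
      ⟨mul_ne_zero (by norm_num) (pow_ne_zero 2 hq0), pow_ne_zero 2 hq0, two_ne_zero, by ring,
        by ring⟩
    have hVR : VR (base (WA n) ℚ) (Cu (-2 * (n : ℚ)) (-3 * (n : ℚ) ^ 2)) 1 0 0 0 := by
      constructor <;> simp [Cu, WA, WeierstrassCurve.map]
    have hVR' : VR (base (WB n) ℚ) (Cu (n : ℚ) ((n : ℚ) ^ 2)) 1 0 0 0 := by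
      constructor <;> simp [Cu, WB, WeierstrassCurve.map]
    have H1 : ∀ (P : (Cu (-2 * (n : ℚ)) (-3 * (n : ℚ) ^ 2)).Point) (m : ℕ), Odd m → m • P = 0 →
        P = 0 := by
      intro P m hm' hP
      let e := hVR.equiv (cu_delta_ne hD.hb' hD.hd')
      have h5 := odd_WA h4 (e P) hm' (by rw [← map_nsmul]; exact (congrArg e hP).trans (map_zero e))
      exact e.injective (by rw [h5, map_zero])
    exact card_tors (hVR'.equiv (cu_delta_ne hD.hb hD.hd)) (TT hD.hb hD.hd) (TT_ne _ _)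
      (T_add_T _ _) fun P m hm' hP => tors_two hD hD' (by norm_num) hq0 rfl
        (by convert h3n using 1; ring) (hneg _ (by linarith))
        (hneg _ (by nlinarith)) H1 hm' hP
  · -- `WC n`
    have hD : Dat (-14 * (n : ℚ)) ((n : ℚ) ^ 2) (7 * n) (12 * (n : ℚ) ^ 2) 2 :=
      ⟨pow_ne_zero 2 hq0, mul_ne_zero (by norm_num) (pow_ne_zero 2 hq0), two_ne_zero, by ring,
        by ring⟩
    have hD' : Dat (7 * (n : ℚ)) (12 * (n : ℚ) ^ 2) (-14 * n) ((n : ℚ) ^ 2) 1 :=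
      ⟨mul_ne_zero (by norm_num) (pow_ne_zero 2 hq0), pow_ne_zero 2 hq0, one_ne_zero, by ring,
        by ring⟩
    have hVR : VR (base (WA n) ℚ) (Cu (7 * (n : ℚ)) (12 * (n : ℚ) ^ 2)) 1 (3 * n) 0 0 := by
      constructor <;> simp [Cu, WA, WeierstrassCurve.map] <;> ring_nf
    have hVR' : VR (base (WC n) ℚ) (Cu (-14 * (n : ℚ)) ((n : ℚ) ^ 2)) 1 0 0 0 := by
      constructor <;> simp [Cu, WC, WeierstrassCurve.map]
    have H1 : ∀ (P : (Cu (7 * (n : ℚ)) (12 * (n : ℚ) ^ 2)).Point) (m : ℕ), Odd m → m • P = 0 →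
        P = 0 := by
      intro P m hm' hP
      let e := hVR.equiv (cu_delta_ne hD.hb' hD.hd')
      have h5 := odd_WA h4 (e P) hm' (by rw [← map_nsmul]; exact (congrArg e hP).trans (map_zero e))
      exact e.injective (by rw [h5, map_zero])
    have hns : ¬ IsSquare ((-14 * (n : ℚ)) ^ 2 - 4 * (n : ℚ) ^ 2) := by
      rintro ⟨r, hr⟩
      apply h3
      refine ⟨r / (8 * n), ?_⟩
      field_simp
      linear_combination hr
    exact card_tors (hVR'.equiv (cu_delta_ne hD.hb hD.hd)) (TT hD.hb hD.hd) (TT_ne _ _)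
      (T_add_T _ _) fun P m hm' hP => tors_two hD hD' (by norm_num) hq0 rfl
        (hneg _ (by linarith)) (hneg _ (by linarith)) hns H1 hm' hP

end Pool.Agent.N87.SN
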