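import Pool.Agent.N818.SN.Stm4
import Pool.Agent.N271.SN.TC

/-!
# Project SN (helper818), part TE (helper87): Tamagawa numbers of `y² = x³ - 14 n x² + 81 n² x`,
after `Pool.Agent.N271.SN.TC` (helper271)
-/

set_option autoImplicit false

namespace Pool.Agent.N87.SN.TE

open WeierstrassCurve
open Pool.Agent.N818.SN (Fm WE base IsTamagawa SingularReduction cE S_TE)
open Pool.Agent.Y700 (PtP SingRed E0 tam)
open Pool.Agent.Y809.BSD14 (index_of t_E0 line_rel t_TGOOD nadd nsub nmul npow nneg ladd lneg lsub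
  lmul lmul' toZMod_eq_zero)
open Pool.Agent.N271.SN (IsC lt_iff_le f64 f64_unit nat_unit c3 c4 c7 c14 c28 norm_n inv_lt_one
  inv_pos' norm_three norm_two y_zero)

open scoped Classical

section padic

variable {p : ℕ} [hp : Fact p.Prime]

theorem isCp (n : ℕ) : IsC ((WE n).map (Int.castRingHom ℚ_[p])).toAffine
    (-14 * (n : ℚ_[p])) (81 * (n : ℚ_[p]) ^ 2) := by
  constructor <;> simp [WE]

theorem Delta (n : ℕ) : (WE n).Δ = -13436928 * (n : ℤ) ^ 6 := by
  simp only [WE, WeierstrassCurve.Δ, WeierstrassCurve.b₂, WeierstrassCurve.b₄,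
    WeierstrassCurve.b₆, WeierstrassCurve.b₈]
  ring

theorem nons {n : ℕ} (hn : n ≠ 0) {x y : ℚ_[p]}
    (h : y ^ 2 = x ^ 3 + -14 * (n : ℚ_[p]) * x ^ 2 + 81 * (n : ℚ_[p]) ^ 2 * x) :
    ((WE n).map (Int.castRingHom ℚ_[p])).toAffine.Nonsingular x y := by
  have hD : ((WE n).map (Int.castRingHom ℚ_[p])).toAffine.Δ ≠ 0 := by
    show ((WE n).map (Int.castRingHom ℚ_[p])).Δ ≠ 0
    rw [WeierstrassCurve.map_Δ, Delta]
    intro h0
    have h1 : ((-13436928 * (n : ℤ) ^ 6 : ℤ) : ℚ_[p]) = 0 := h0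
    have h2 : (-13436928 * (n : ℤ) ^ 6 : ℤ) = 0 := by exact_mod_cast h1
    have h3 : (n : ℤ) ≠ 0 := by exact_mod_cast hn
    have h4 : (n : ℤ) ^ 6 ≠ 0 := pow_ne_zero _ h3
    omega
  rw [← Affine.equation_iff_nonsingular_of_Δ_ne_zero hD]
  exact (isCp n).eqn.2 h

theorem sing_def (n : ℕ) (x y : ℚ_[p]) : SingRed (WE n) p x y ↔ ‖x‖ ≤ 1 ∧ ‖y‖ ≤ 1 ∧
    ‖3 * x ^ 2 + 2 * (-14 * (n : ℚ_[p])) * x + 81 * (n : ℚ_[p]) ^ 2‖ < 1 ∧ ‖2 * y‖ < 1 := by
  unfold SingRed
  have e1 : ((WE n).a₁ : ℚ_[p]) * y - (3 * x ^ 2 + 2 * ((WE n).a₂ : ℚ_[p]) * x +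
      ((WE n).a₄ : ℚ_[p])) = -(3 * x ^ 2 + 2 * (-14 * (n : ℚ_[p])) * x + 81 * (n : ℚ_[p]) ^ 2) := by
    simp only [WE]
    push_cast
    ring
  have e2 : 2 * y + ((WE n).a₁ : ℚ_[p]) * x + ((WE n).a₃ : ℚ_[p]) = 2 * y := by
    simp only [WE]
    push_cast
    ring
  rw [e1, e2, norm_neg]

/-- the statement about the subgroup -/
theorem final {n : ℕ} {c : ℕ} (h : tam (WE n) p = c) :
    ∃ H : AddSubgroup (base (WE n) ℚ_[p]).toAffine.Point,
      (∀ P, P ∈ H ↔ ¬ SingularReduction (WE n) p P) ∧ H.index = c := by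
  refine ⟨E0 (WE n) p, fun P => ?_, h⟩
  rw [t_E0]
  constructor
  · rintro h1 ⟨x, y, h2, he, hs⟩
    exact h1 x y h2 he hs
  · intro h1 x y h2 he hs
    exact h1 ⟨x, y, h2, he, hs⟩

theorem mem_E0 {n : ℕ} {x y : ℚ_[p]}
    (h : ((WE n).map (Int.castRingHom ℚ_[p])).toAffine.Nonsingular x y) :
    (Affine.Point.some x y h : PtP (WE n) p) ∈ E0 (WE n) p ↔ ¬ SingRed (WE n) p x y := by
  rw [t_E0]
  constructor
  · intro h1
    exact h1 x y h rfl
  · intro h1 x' y' h' he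
    obtain ⟨e1, e2⟩ := Affine.Point.some.inj he
    rw [← e1, ← e2]
    exact h1

end padic

section two

theorem dec64 : ∀ n : ZMod 64, 8 * n = 24 → ∀ x : ZMod 64, 32 * x = 32 → ∀ y : ZMod 64,
    y ^ 2 ≠ x ^ 3 + -14 * n * x ^ 2 + 81 * n ^ 2 * x := by
  decide +kernel

/-- there are no points with singular reduction modulo two -/
theorem two [Fact (Nat.Prime 2)] {n : ℕ} (hn : n % 8 = 3) : tam (WE n) 2 = 1 := by
  rw [tam, AddSubgroup.index_eq_one, eq_top_iff]
  intro P _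
  rw [t_E0]
  rintro x y h rfl hs
  rw [sing_def] at hs
  obtain ⟨hx, hy, hf, -⟩ := hs
  have hE := (isCp n).eqn.1 h.1
  have hN := nat_unit (n := n) (by omega)
  have hk : ∀ k : ℤ, ‖(k : ℚ_[2])‖ ≤ 1 := fun k => Padic.norm_int_le_one k
  have hx1 : ‖x‖ = 1 := by
    by_contra hne
    have hx1 : ‖x‖ < 1 := lt_of_le_of_ne hx hne
    have n81 : ‖(81 : ℚ_[2])‖ = 1 := by
      have := nat_unit (n := 81) (by norm_num)
      exact_mod_cast this
    have e1 : 81 * (n : ℚ_[2]) ^ 2 = (3 * x ^ 2 + 2 * (-14 * (n : ℚ_[2])) * x +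
        81 * (n : ℚ_[2]) ^ 2) - (((3 : ℤ) : ℚ_[2]) * x + ((-28 : ℤ) : ℚ_[2]) * n) * x := by
      push_cast
      ring
    have e3 : ‖81 * (n : ℚ_[2]) ^ 2‖ < 1 := by
      rw [e1]
      exact lsub hf (lmul (nadd (nmul (hk _) hx) (nmul (hk _) hN.le)) hx1)
    rw [norm_mul, n81, one_mul, norm_pow, hN, one_pow] at e3
    exact lt_irrefl _ e3
  obtain ⟨X, rfl⟩ : ∃ X : ℤ_[2], (X : ℚ_[2]) = x := ⟨⟨x, hx⟩, rfl⟩
  obtain ⟨Y, rfl⟩ : ∃ Y : ℤ_[2], (Y : ℚ_[2]) = y := ⟨⟨y, hy⟩, rfl⟩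
  have e1 : Y ^ 2 = X ^ 3 + -14 * (n : ℤ_[2]) * X ^ 2 + 81 * (n : ℤ_[2]) ^ 2 * X := by
    apply PadicInt.ext
    push_cast
    exact hE
  have e4 := congrArg (f64 : ℤ_[2] → ZMod 64) e1
  simp only [map_add, map_mul, map_pow, map_neg, map_natCast, map_ofNat] at e4
  refine dec64 (n : ZMod 64) ?_ (f64 X) (f64_unit hx1) (f64 Y) e4
  obtain ⟨k, hk⟩ : ∃ k, n = 8 * k + 3 := ⟨n / 8, by omega⟩
  rw [hk]
  push_cast
  have e2 : (64 : ZMod 64) = 0 := by decide
  linear_combination (k : ZMod 64) * e2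

end two

section three

theorem dec3 : ∀ n u : ZMod 3, n = 2 → u ^ 2 ≠ -14 * n := by
  decide +kernel

theorem sing3 [Fact (Nat.Prime 3)] {n : ℕ} (hn : n % 3 = 2) {x y : ℚ_[3]}
    (h : ((WE n).map (Int.castRingHom ℚ_[3])).toAffine.Nonsingular x y) :
    SingRed (WE n) 3 x y ↔ ‖x‖ < 1 := by
  have hE := (isCp n).eqn.1 h.1
  have hk : ∀ k : ℤ, ‖(k : ℚ_[3])‖ ≤ 1 := fun k => Padic.norm_int_le_one k
  have hN : ‖(n : ℚ_[3])‖ = 1 := by
    rw [Padic.norm_natCast_eq_one_iff]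
    exact (Nat.Prime.coprime_iff_not_dvd Nat.prime_three).2 (by omega)
  have h3 : ‖(3 : ℚ_[3])‖ < 1 := by
    have := Padic.norm_p_lt_one (p := 3)
    exact_mod_cast this
  have h28 : ‖(28 : ℚ_[3])‖ = 1 := by
    have := (Padic.norm_natCast_eq_one_iff (p := 3) (n := 28)).2 (by norm_num)
    exact_mod_cast this
  rw [sing_def]
  constructor
  · rintro ⟨hx, hy, hf, -⟩
    have e1 : 28 * ((n : ℚ_[3]) * x) = 3 * (x ^ 2 + ((27 : ℤ) : ℚ_[3]) * (n : ℚ_[3]) ^ 2) -
        (3 * x ^ 2 + 2 * (-14 * (n : ℚ_[3])) * x + 81 * (n : ℚ_[3]) ^ 2) := by push_cast; ring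
    have e2 : ‖28 * ((n : ℚ_[3]) * x)‖ < 1 := by
      rw [e1]
      exact lsub (lmul' h3 (nadd (npow hx 2) (nmul (hk _) (npow hN.le 2)))) hf
    rwa [norm_mul, norm_mul, h28, hN, one_mul, one_mul] at e2
  · intro hx
    have hf : ‖3 * x ^ 2 + 2 * (-14 * (n : ℚ_[3])) * x + 81 * (n : ℚ_[3]) ^ 2‖ < 1 := by
      have e1 : 3 * x ^ 2 + 2 * (-14 * (n : ℚ_[3])) * x + 81 * (n : ℚ_[3]) ^ 2 =
        (((3 : ℤ) : ℚ_[3]) * x + ((-28 : ℤ) : ℚ_[3]) * n) * x +
          3 * (((27 : ℤ) : ℚ_[3]) * n ^ 2) := by push_cast; ring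
      rw [e1]
      exact ladd (lmul (nadd (nmul (hk _) hx.le) (nmul (hk _) hN.le)) hx)
        (lmul' h3 (nmul (hk _) (npow hN.le 2)))
    have hy : ‖y‖ < 1 := by
      have e1 : ‖y ^ 2‖ < 1 := by
        rw [hE]
        have e2 : x ^ 3 + -14 * (n : ℚ_[3]) * x ^ 2 + 81 * (n : ℚ_[3]) ^ 2 * x =
          (x ^ 2 + ((-14 : ℤ) : ℚ_[3]) * (n * x) + ((81 : ℤ) : ℚ_[3]) * (n : ℚ_[3]) ^ 2) * x := by
          push_cast; ring
        rw [e2]
        exact lmul (nadd (nadd (npow hx.le 2) (nmul (hk _) (nmul hN.le hx.le)))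
          (nmul (hk _) (npow hN.le 2))) hx
      rw [norm_pow] at e1
      by_contra hc
      nlinarith [not_lt.1 hc]
    refine ⟨hx.le, hy.le, hf, ?_⟩
    have := hk 2
    push_cast at this
    exact lmul this hy

theorem three [Fact (Nat.Prime 3)] {n : ℕ} (hn : n % 3 = 2) : tam (WE n) 3 = 2 := by
  have hn0 : n ≠ 0 := by omega
  have hT : ((WE n).map (Int.castRingHom ℚ_[3])).toAffine.Nonsingular 0 0 :=
    nons hn0 (by ring)
  rw [tam, AddSubgroup.index_eq_two_iff_exists_notMem_and]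
  refine ⟨Affine.Point.some _ _ hT, ?_, fun P => ?_⟩
  · rw [mem_E0, not_not, sing3 hn hT, norm_zero]
    exact one_pos
  · rcases P with _ | ⟨x, y, h⟩
    · exact Or.inr (E0 (WE n) 3).zero_mem
    by_cases hx : ‖x‖ < 1
    · left
      have hE := (isCp n).eqn.1 h.1
      by_cases hx0 : x = 0
      · subst hx0
        have hy : y = 0 := y_zero (by rw [hE]; ring)
        subst hy
        rw [(isCp n).dbl h]
        exact (E0 (WE n) 3).zero_mem
      · obtain ⟨x3, y3, hn3, he3, hx3⟩ := (isCp n).add_T h hT hx0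
        rw [he3, mem_E0, sing3 hn hn3]
        intro hlt
        have e1 : x3 * x = 81 * (n : ℚ_[3]) ^ 2 := by linear_combination hx3
        have e2 : (y / x) ^ 2 = x + -14 * (n : ℚ_[3]) + x3 := by
          rw [div_pow, div_eq_iff (pow_ne_zero 2 hx0), hE]
          linear_combination (-x) * e1
        have hN : ‖(n : ℚ_[3])‖ ≤ 1 := by
          have := Padic.norm_int_le_one (p := 3) (n : ℤ)
          exact_mod_cast this
        have hk : ∀ k : ℤ, ‖(k : ℚ_[3])‖ ≤ 1 := fun k => Padic.norm_int_le_one k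
        have hu : ‖y / x‖ ≤ 1 := by
          have e3 : ‖(y / x) ^ 2‖ ≤ 1 := by
            rw [e2]
            have h4 := hk (-14)
            push_cast at h4
            exact nadd (nadd hx.le (nmul h4 hN)) hlt.le
          rw [norm_pow] at e3
          nlinarith [norm_nonneg (y / x)]
        obtain ⟨U, hU⟩ : ∃ U : ℤ_[3], (U : ℚ_[3]) = y / x := ⟨⟨y / x, hu⟩, rfl⟩
        obtain ⟨X, hX⟩ : ∃ X : ℤ_[3], (X : ℚ_[3]) = x := ⟨⟨x, hx.le⟩, rfl⟩
        obtain ⟨X3, hX3⟩ : ∃ X : ℤ_[3], (X : ℚ_[3]) = x3 := ⟨⟨x3, hlt.le⟩, rfl⟩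
        have e3 : U ^ 2 = X + -14 * (n : ℤ_[3]) + X3 := by
          apply PadicInt.ext
          push_cast
          rw [hU, hX, hX3]
          exact e2
        have z1 : PadicInt.toZMod X = 0 := by
          rw [toZMod_eq_zero, PadicInt.norm_def, hX]
          exact hx
        have z2 : PadicInt.toZMod X3 = 0 := by
          rw [toZMod_eq_zero, PadicInt.norm_def, hX3]
          exact hlt
        have e4 := congrArg (PadicInt.toZMod : ℤ_[3] → ZMod 3) e3
        simp only [map_add, map_mul, map_pow, map_neg, map_natCast, map_ofNat, z1, z2, zero_add,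
          add_zero] at e4
        refine dec3 (n : ZMod 3) _ ?_ e4
        obtain ⟨k, hk⟩ : ∃ k, n = 3 * k + 2 := ⟨n / 3, by omega⟩
        rw [hk]
        push_cast
        have e5 : (3 : ZMod 3) = 0 := by exact_mod_cast ZMod.natCast_self 3
        linear_combination (k : ZMod 3) * e5
    · right
      rw [mem_E0, sing3 hn h]
      exact hx

end three

section ram

variable {p : ℕ} [hp : Fact p.Prime] {n : ℕ}

theorem c81 : ((81 : ℤ_[p]) : ℚ_[p]) = 81 := rfl

theorem sing_ram (h3 : p ≠ 3) (hN : ‖(n : ℚ_[p])‖ < 1) {x y : ℚ_[p]}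
    (h : ((WE n).map (Int.castRingHom ℚ_[p])).toAffine.Nonsingular x y) :
    SingRed (WE n) p x y ↔ ‖x‖ < 1 := by
  have hE := (isCp n).eqn.1 h.1
  have hk : ∀ k : ℤ, ‖(k : ℚ_[p])‖ ≤ 1 := fun k => Padic.norm_int_le_one k
  rw [sing_def]
  constructor
  · rintro ⟨hx, hy, hf, -⟩
    have e1 : 3 * x ^ 2 = (3 * x ^ 2 + 2 * (-14 * (n : ℚ_[p])) * x + 81 * (n : ℚ_[p]) ^ 2) -
        (((-28 : ℤ) : ℚ_[p]) * x + ((81 : ℤ) : ℚ_[p]) * n) * n := by push_cast; ring
    have e2 : ‖3 * x ^ 2‖ < 1 := by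
      rw [e1]
      exact lsub hf (lmul (nadd (nmul (hk _) hx) (nmul (hk _) hN.le)) hN)
    rw [norm_mul, norm_three h3, one_mul, norm_pow] at e2
    by_contra hc
    have : ‖x‖ = 1 := le_antisymm hx (not_lt.1 hc)
    rw [this] at e2
    norm_num at e2
  · intro hx
    have hf : ‖3 * x ^ 2 + 2 * (-14 * (n : ℚ_[p])) * x + 81 * (n : ℚ_[p]) ^ 2‖ < 1 := by
      have e1 : 3 * x ^ 2 + 2 * (-14 * (n : ℚ_[p])) * x + 81 * (n : ℚ_[p]) ^ 2 =
        (((3 : ℤ) : ℚ_[p]) * x + ((-28 : ℤ) : ℚ_[p]) * n) * x + (((81 : ℤ) : ℚ_[p]) * n) * n := by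
          push_cast; ring
      rw [e1]
      exact ladd (lmul (nadd (nmul (hk _) hx.le) (nmul (hk _) hN.le)) hx)
        (lmul (nmul (hk _) hN.le) hN)
    have hy : ‖y‖ < 1 := by
      have e1 : ‖y ^ 2‖ < 1 := by
        rw [hE]
        have e2 : x ^ 3 + -14 * (n : ℚ_[p]) * x ^ 2 + 81 * (n : ℚ_[p]) ^ 2 * x =
          (x ^ 2 + ((-14 : ℤ) : ℚ_[p]) * (n * x) + ((81 : ℤ) : ℚ_[p]) * (n : ℚ_[p]) ^ 2) * x := by
          push_cast; ring
        rw [e2]
        exact lmul (nadd (nadd (npow hx.le 2) (nmul (hk _) (nmul hN.le hx.le)))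
          (nmul (hk _) (npow hN.le 2))) hx
      rw [norm_pow] at e1
      by_contra hc
      nlinarith [not_lt.1 hc]
    refine ⟨hx.le, hy.le, hf, ?_⟩
    have := hk 2
    push_cast at this
    exact lmul this hy

/-- the first coordinates of the points with singular reduction -/
theorem key_ram (hs : Squarefree n) (hpn : p ∣ n) {x y : ℚ_[p]}
    (h : ((WE n).map (Int.castRingHom ℚ_[p])).toAffine.Nonsingular x y) (hx : ‖x‖ < 1) :
    ∃ X : ℤ_[p], x = n * (X : ℚ_[p]) ∧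
      PadicInt.toZMod X * (PadicInt.toZMod X ^ 2 - 14 * PadicInt.toZMod X + 81) = 0 := by
  have hE := (isCp n).eqn.1 h.1
  have hN := norm_n (p := p) hs hpn
  have hp0 := inv_pos' (p := p)
  have hn0 : (n : ℚ_[p]) ≠ 0 := by
    intro h0
    rw [h0, norm_zero] at hN
    rw [← hN] at hp0
    exact lt_irrefl _ hp0
  have hX : ‖x / n‖ ≤ 1 := by
    rw [norm_div, hN, div_le_one hp0]
    exact (lt_iff_le x).1 hx
  obtain ⟨X, hXe⟩ : ∃ X : ℤ_[p], (X : ℚ_[p]) = x / n := ⟨⟨x / n, hX⟩, rfl⟩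
  have hxX : x = n * (X : ℚ_[p]) := by
    rw [hXe]
    field_simp
  refine ⟨X, hxX, ?_⟩
  have hg : PadicInt.toZMod (X * (X ^ 2 - 14 * X + 81)) = 0 := by
    rw [toZMod_eq_zero]
    refine lt_of_le_of_ne (PadicInt.norm_le_one _) fun hg => ?_
    have e1 : y ^ 2 = (n : ℚ_[p]) ^ 3 * ((X * (X ^ 2 - 14 * X + 81) : ℤ_[p]) : ℚ_[p]) := by
      rw [hE, hxX]
      push_cast
      rw [c14, c81]
      ring
    have e2 : ‖y‖ ^ 2 = ((p : ℝ)⁻¹) ^ 3 := by
      rw [← norm_pow, e1, norm_mul, norm_pow, hN, PadicInt.padic_norm_e_of_padicInt, hg, mul_one]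
    have hy : y ≠ 0 := by
      intro h0
      rw [h0, norm_zero] at e2
      have : 0 < ((p : ℝ)⁻¹) ^ 3 := by positivity
      rw [← e2] at this
      norm_num at this
    rw [Padic.norm_eq_zpow_neg_valuation hy, ← zpow_natCast, ← zpow_mul, ← zpow_neg_one,
      ← zpow_natCast, ← zpow_mul] at e2
    have hp1 : (1 : ℝ) < p := by exact_mod_cast hp.out.one_lt
    have e3 := zpow_right_injective₀ (by linarith) hp1.ne' e2
    push_cast at e3
    omega
  rw [← hg]
  simp only [map_mul, map_add, map_sub, map_pow, map_one, map_ofNat]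

/-- translation by a point of order two -/
theorem shift (h3 : p ≠ 3) (hs : Squarefree n) (hpn : p ∣ n) {x y : ℚ_[p]} {X e : ℤ_[p]}
    (h : ((WE n).map (Int.castRingHom ℚ_[p])).toAffine.Nonsingular x y)
    (hxX : x = n * (X : ℚ_[p])) (hXe : PadicInt.toZMod X = PadicInt.toZMod e)
    (hT : ((WE n).map (Int.castRingHom ℚ_[p])).toAffine.Nonsingular (n * (e : ℚ_[p])) 0)
    (he : PadicInt.toZMod (3 * e ^ 2 - 28 * e + 81) ≠ 0) :
    (Affine.Point.some x y h + Affine.Point.some _ 0 hT : PtP (WE n) p) ∈ E0 (WE n) p := by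
  have hN := norm_n (p := p) hs hpn
  have hp0 := inv_pos' (p := p)
  have hN1 : ‖(n : ℚ_[p])‖ < 1 := by rw [hN]; exact inv_lt_one
  by_cases hx : x = n * (e : ℚ_[p])
  · subst hx
    have hy : y = 0 := by
      have e1 := (isCp n).eqn.1 h.1
      have e2 := (isCp n).eqn.1 hT.1
      rw [← e2] at e1
      exact y_zero (by rw [e1]; norm_num)
    subst hy
    rw [(isCp n).dbl h]
    exact (E0 (WE n) p).zero_mem
  · obtain ⟨x3, y3, hn3, he3, hx3⟩ := (isCp n).add_T h hT hx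
    rw [he3, mem_E0, sing_ram h3 hN1 hn3]
    intro hlt
    have hd : ‖X - e‖ < 1 := by
      rw [← toZMod_eq_zero, map_sub, hXe, sub_self]
    have hd' : ‖((X - e : ℤ_[p]) : ℚ_[p])‖ ≤ (p : ℝ)⁻¹ := by
      rw [← lt_iff_le]
      exact hd
    have e1 : (x3 - n * (e : ℚ_[p])) * (n * ((X - e : ℤ_[p]) : ℚ_[p])) =
        (n : ℚ_[p]) ^ 2 * ((3 * e ^ 2 - 28 * e + 81 : ℤ_[p]) : ℚ_[p]) := by
      have e2 : (n : ℚ_[p]) * ((X - e : ℤ_[p]) : ℚ_[p]) = x - n * (e : ℚ_[p]) := by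
        rw [hxX]
        push_cast
        ring
      rw [e2, hx3]
      push_cast
      rw [c3, c28, c81]
      ring
    have hu : ‖(3 * e ^ 2 - 28 * e + 81 : ℤ_[p])‖ = 1 := by
      refine le_antisymm (PadicInt.norm_le_one _) (not_lt.1 fun hc => he ?_)
      exact toZMod_eq_zero.2 hc
    have e3 := congrArg (fun z : ℚ_[p] => ‖z‖) e1
    simp only [norm_mul, norm_pow, hN, PadicInt.padic_norm_e_of_padicInt] at e3
    rw [hu] at e3
    have e4 : ‖x3 - n * (e : ℚ_[p])‖ < 1 := lsub hlt (lmul' hN1 (PadicInt.norm_le_one e))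
    have hd'' : ‖X - e‖ ≤ (p : ℝ)⁻¹ := hd'
    have e5 : ‖x3 - n * (e : ℚ_[p])‖ * ((p : ℝ)⁻¹ * ‖X - e‖) ≤
        ‖x3 - n * (e : ℚ_[p])‖ * ((p : ℝ)⁻¹ * (p : ℝ)⁻¹) := by gcongr
    have e6 : ‖x3 - n * (e : ℚ_[p])‖ * ((p : ℝ)⁻¹ * (p : ℝ)⁻¹) < 1 * ((p : ℝ)⁻¹ * (p : ℝ)⁻¹) :=
      mul_lt_mul_of_pos_right e4 (by positivity)
    rw [e3] at e5
    nlinarith

theorem zero_pt (hn0 : n ≠ 0) :
    ((WE n).map (Int.castRingHom ℚ_[p])).toAffine.Nonsingular (n * ((0 : ℤ_[p]) : ℚ_[p])) 0 :=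
  nons hn0 (by push_cast; ring)

theorem z3 (h3 : p ≠ 3) : (3 : ZMod p) ≠ 0 := by
  have := (ZMod.natCast_eq_zero_iff 3 p).not.2 (fun hd =>
    h3 ((Nat.prime_dvd_prime_iff_eq hp.out Nat.prime_three).1 hd))
  exact_mod_cast this

theorem e81 (h3 : p ≠ 3) :
    PadicInt.toZMod (3 * (0 : ℤ_[p]) ^ 2 - 28 * (0 : ℤ_[p]) + 81) ≠ 0 := by
  have e : (3 * (0 : ℤ_[p]) ^ 2 - 28 * (0 : ℤ_[p]) + 81) = 81 := by ring
  rw [e, map_ofNat]
  have e2 : (OfNat.ofNat 81 : ZMod p) = 3 ^ 4 := by norm_num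
  rw [e2]
  exact pow_ne_zero 4 (z3 h3)

/-- points of order two have singular reduction -/
theorem tors_sing (h3 : p ≠ 3) (hs : Squarefree n) (hpn : p ∣ n) {P : PtP (WE n) p}
    (hP0 : P ≠ 0) (hP : P + P = 0) : P ∉ E0 (WE n) p := by
  have hN := norm_n (p := p) hs hpn
  have hN1 : ‖(n : ℚ_[p])‖ < 1 := by rw [hN]; exact inv_lt_one
  have hk : ∀ k : ℤ, ‖(k : ℚ_[p])‖ ≤ 1 := fun k => Padic.norm_int_le_one k
  rcases P with _ | ⟨x, y, h⟩
  · exact absurd rfl hP0
  have hy := (isCp n).y_of_dbl two_ne_zero h hP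
  subst hy
  rw [mem_E0, not_not, sing_ram h3 hN1 h]
  have hE := (isCp n).eqn.1 h.1
  by_contra hc
  have hc := not_lt.1 hc
  have e1 : x ^ 3 = -((((-14 : ℤ) : ℚ_[p]) * x ^ 2 + ((81 : ℤ) : ℚ_[p]) * (n * x)) * n) := by
    push_cast
    linear_combination -hE
  have e2 : ‖x‖ ^ 3 ≤ ‖x‖ ^ 2 * ‖(n : ℚ_[p])‖ := by
    rw [← norm_pow, e1, norm_neg, norm_mul]
    refine mul_le_mul_of_nonneg_right ?_ (norm_nonneg _)
    refine (Padic.nonarchimedean _ _).trans (max_le ?_ ?_)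
    · rw [norm_mul, norm_pow]
      exact mul_le_of_le_one_left (by positivity) (hk _)
    · rw [norm_mul, norm_mul]
      calc ‖((81 : ℤ) : ℚ_[p])‖ * (‖(n : ℚ_[p])‖ * ‖x‖) ≤ 1 * (‖(n : ℚ_[p])‖ * ‖x‖) :=
            mul_le_mul_of_nonneg_right (hk _) (by positivity)
        _ ≤ ‖x‖ ^ 2 := by nlinarith [norm_nonneg (n : ℚ_[p])]
  have e3 : 0 < ‖x‖ ^ 2 := by positivity
  nlinarith

/-- **Tamagawa number two** -/
theorem ram_two (h2 : p ≠ 2) (h3 : p ≠ 3) (hs : Squarefree n) (hpn : p ∣ n)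
    (hsq : ¬ IsSquare (-2 : ZMod p)) : tam (WE n) p = 2 := by
  have hn0 : n ≠ 0 := hs.ne_zero
  have hN := norm_n (p := p) hs hpn
  have hN1 : ‖(n : ℚ_[p])‖ < 1 := by rw [hN]; exact inv_lt_one
  rw [tam, AddSubgroup.index_eq_two_iff_exists_notMem_and]
  refine ⟨Affine.Point.some _ _ (zero_pt hn0), ?_, fun P => ?_⟩
  · refine tors_sing h3 hs hpn (Affine.Point.some_ne_zero _) ((isCp n).dbl _)
  · rcases P with _ | ⟨x, y, h⟩
    · exact Or.inr (E0 (WE n) p).zero_mem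
    by_cases hx : ‖x‖ < 1
    · left
      obtain ⟨X, hxX, hX⟩ := key_ram hs hpn h hx
      refine shift h3 hs hpn h hxX ?_ (zero_pt hn0) (e81 h3)
      rw [map_zero]
      rcases mul_eq_zero.1 hX with hX | hX
      · exact hX
      · exfalso
        apply hsq
        have h4 : (4 : ZMod p) ≠ 0 := by
          have h22 : (2 : ZMod p) ≠ 0 := by
            have := (ZMod.natCast_eq_zero_iff 2 p).not.2 (fun hd =>
              h2 ((Nat.prime_dvd_prime_iff_eq hp.out Nat.prime_two).1 hd))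
            exact_mod_cast this
          have : (4 : ZMod p) = 2 * 2 := by norm_num
          rw [this]
          exact mul_ne_zero h22 h22
        refine ⟨(PadicInt.toZMod X - 7) / 4, ?_⟩
        field_simp
        linear_combination -hX
    · right
      rw [mem_E0, sing_ram h3 hN1 h]
      exact hx

/-- a square root of minus two -/
theorem sqrtm2 (h2 : p ≠ 2) (hsq : IsSquare (-2 : ZMod p)) : ∃ s : ℤ_[p], s ^ 2 = -2 := by
  obtain ⟨a, ha⟩ := hsq
  obtain ⟨b, hb⟩ : ∃ b : ℤ_[p], PadicInt.toZMod b = a := ⟨(a.val : ℤ_[p]), by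
    rw [map_natCast, ZMod.natCast_zmod_val]⟩
  have h22 : (2 : ZMod p) ≠ 0 := by
    have := (ZMod.natCast_eq_zero_iff 2 p).not.2 (fun hd =>
      h2 ((Nat.prime_dvd_prime_iff_eq hp.out Nat.prime_two).1 hd))
    exact_mod_cast this
  have ha0 : a ≠ 0 := by
    intro h0
    rw [h0, mul_zero] at ha
    exact h22 (neg_eq_zero.1 ha)
  have e1 : ‖b ^ 2 + 2‖ < 1 := by
    rw [← toZMod_eq_zero, map_add, map_pow, hb, map_ofNat]
    have : (OfNat.ofNat 2 : ZMod p) = 2 := rfl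
    rw [this]
    linear_combination -ha
  have e2 : ‖2 * b‖ = 1 := by
    refine le_antisymm (PadicInt.norm_le_one _) (not_lt.1 fun hc => ?_)
    rw [← toZMod_eq_zero, map_mul, hb, map_ofNat] at hc
    exact mul_ne_zero h22 ha0 hc
  obtain ⟨z, hz, -⟩ := hensels_lemma (p := p) (R := ℤ_[p])
    (F := (Polynomial.X ^ 2 + Polynomial.C (2 : ℤ_[p]))) (a := b) (by
      simp only [map_add, map_pow, Polynomial.aeval_X, Polynomial.aeval_C,
        Polynomial.derivative_X_pow, Polynomial.derivative_C, add_zero, map_mul]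
      simp only [Nat.cast_ofNat, Algebra.algebraMap_self,
        map_ofNat, Nat.add_one_sub_one, pow_one]
      rw [e2]
      norm_num
      exact e1)
  refine ⟨z, ?_⟩
  simp only [map_add, map_pow, Polynomial.aeval_X, Polynomial.aeval_C, Algebra.algebraMap_self,
    RingHom.id_apply] at hz
  exact eq_neg_of_add_eq_zero_left hz

/-- **Tamagawa number four** -/
theorem ram_four (h2 : p ≠ 2) (h3 : p ≠ 3) (hs : Squarefree n) (hpn : p ∣ n)
    (hsq : IsSquare (-2 : ZMod p)) : tam (WE n) p = 4 := by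
  have hn0 : n ≠ 0 := hs.ne_zero
  have hN := norm_n (p := p) hs hpn
  have hN1 : ‖(n : ℚ_[p])‖ < 1 := by rw [hN]; exact inv_lt_one
  have hnq : (n : ℚ_[p]) ≠ 0 := by exact_mod_cast hn0
  obtain ⟨s, hs3⟩ := sqrtm2 h2 hsq
  have hsq3 : (s : ℚ_[p]) ^ 2 = -2 := by
    have := congrArg (fun z : ℤ_[p] => (z : ℚ_[p])) hs3
    push_cast at this
    exact this
  have h22 : (2 : ZMod p) ≠ 0 := by
    have := (ZMod.natCast_eq_zero_iff 2 p).not.2 (fun hd =>
      h2 ((Nat.prime_dvd_prime_iff_eq hp.out Nat.prime_two).1 hd))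
    exact_mod_cast this
  have h33 : (3 : ZMod p) ≠ 0 := by
    have := (ZMod.natCast_eq_zero_iff 3 p).not.2 (fun hd =>
      h3 ((Nat.prime_dvd_prime_iff_eq hp.out Nat.prime_three).1 hd))
    exact_mod_cast this
  have hsz : PadicInt.toZMod s ^ 2 = -2 := by
    rw [← map_pow, hs3, map_neg, map_ofNat]
  have hs0 : (s : ℚ_[p]) ≠ 0 := by
    intro h0
    rw [h0] at hsq3
    norm_num at hsq3
  have nT : ∀ ε : ℤ_[p], ε ^ 2 = 1 → ((WE n).map (Int.castRingHom ℚ_[p])).toAffine.Nonsingular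
      (n * ((7 + 4 * ε * s : ℤ_[p]) : ℚ_[p])) 0 := by
    intro ε hε
    have hε' : (ε : ℚ_[p]) ^ 2 = 1 := by
      have := congrArg (fun z : ℤ_[p] => (z : ℚ_[p])) hε
      push_cast at this
      exact this
    refine nons hn0 ?_
    push_cast
    rw [c7, c4]
    linear_combination (-(n : ℚ_[p]) ^ 3 * (7 + 4 * ε * s) * 16 * s ^ 2) * hε' -
      ((n : ℚ_[p]) ^ 3 * (7 + 4 * ε * s) * 16) * hsq3
  have dT : ∀ ε : ℤ_[p], ε ^ 2 = 1 → PadicInt.toZMod (3 * (7 + 4 * ε * s) ^ 2 -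
      28 * (7 + 4 * ε * s) + 81) ≠ 0 := by
    intro ε hε h0
    simp only [map_add, map_sub, map_mul, map_pow, map_ofNat] at h0
    have hεz : PadicInt.toZMod ε ^ 2 = 1 := by rw [← map_pow, hε, map_one]
    have e1 : (2 : ZMod p) ^ 3 * (7 * PadicInt.toZMod ε * PadicInt.toZMod s - 8) = 0 := by
      linear_combination h0 - 48 * PadicInt.toZMod s ^ 2 * hεz - 48 * hsz
    have e2 := (mul_eq_zero.1 e1).resolve_left (pow_ne_zero 3 h22)
    have e3 : (2 : ZMod p) * 3 ^ 4 = 0 := by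
      linear_combination (-(7 * PadicInt.toZMod ε * PadicInt.toZMod s + 8)) * e2 +
        49 * PadicInt.toZMod s ^ 2 * hεz + 49 * hsz
    exact mul_ne_zero h22 (pow_ne_zero 4 h33) e3
  have e1 : ((1 : ℤ_[p])) ^ 2 = 1 := one_pow 2
  have e2 : ((-1 : ℤ_[p])) ^ 2 = 1 := by ring
  let T : Fin 4 → PtP (WE n) p := ![0, Affine.Point.some _ _ (zero_pt hn0),
    Affine.Point.some _ _ (nT 1 e1), Affine.Point.some _ _ (nT (-1) e2)]
  have hT2 : ∀ i, T i + T i = 0 := by
    intro i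
    fin_cases i
    · exact add_zero 0
    · exact (isCp n).dbl _
    · exact (isCp n).dbl _
    · exact (isCp n).dbl _
  have x12 : (n : ℚ_[p]) * ((0 : ℤ_[p]) : ℚ_[p]) ≠ n * ((7 + 4 * 1 * s : ℤ_[p]) : ℚ_[p]) := by
    intro h
    have h' := mul_left_cancel₀ hnq h
    push_cast at h'
    rw [c7, c4] at h'
    have : (1 : ℚ_[p]) = 0 := by
      linear_combination (-(7 - 4 * (s : ℚ_[p])) / 81) * h' + (16 / 81) * hsq3
    exact one_ne_zero this
  have x13 : (n : ℚ_[p]) * ((0 : ℤ_[p]) : ℚ_[p]) ≠ n * ((7 + 4 * (-1) * s : ℤ_[p]) : ℚ_[p]) := by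
    intro h
    have h' := mul_left_cancel₀ hnq h
    push_cast at h'
    rw [c7, c4] at h'
    have : (1 : ℚ_[p]) = 0 := by
      linear_combination (-(7 + 4 * (s : ℚ_[p])) / 81) * h' + (16 / 81) * hsq3
    exact one_ne_zero this
  have x23 : (n : ℚ_[p]) * ((7 + 4 * 1 * s : ℤ_[p]) : ℚ_[p]) ≠
      n * ((7 + 4 * (-1) * s : ℤ_[p]) : ℚ_[p]) := by
    intro h
    have h' := mul_left_cancel₀ hnq h
    push_cast at h'
    rw [c7, c4] at h'
    have : (s : ℚ_[p]) = 0 := by linear_combination (1 / 8) * h'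
    exact hs0 this
  have hTinj : Function.Injective T := by
    intro i j hij
    fin_cases i <;> fin_cases j
    · rfl
    · exact absurd hij.symm (Affine.Point.some_ne_zero _)
    · exact absurd hij.symm (Affine.Point.some_ne_zero _)
    · exact absurd hij.symm (Affine.Point.some_ne_zero _)
    · exact absurd hij (Affine.Point.some_ne_zero _)
    · rfl
    · exact absurd (Affine.Point.some.inj hij).1 x12
    · exact absurd (Affine.Point.some.inj hij).1 x13
    · exact absurd hij (Affine.Point.some_ne_zero _)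
    · exact absurd (Affine.Point.some.inj hij).1.symm x12
    · rfl
    · exact absurd (Affine.Point.some.inj hij).1 x23
    · exact absurd hij (Affine.Point.some_ne_zero _)
    · exact absurd (Affine.Point.some.inj hij).1.symm x13
    · exact absurd (Affine.Point.some.inj hij).1.symm x23
    · rfl
  refine index_of (E0 (WE n) p) T hT2 ?_ ?_
  · intro P
    rcases P with _ | ⟨x, y, h⟩
    · exact ⟨0, (E0 (WE n) p).zero_mem⟩
    by_cases hx : ‖x‖ < 1
    · obtain ⟨X, hxX, hX⟩ := key_ram hs hpn h hx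
      rcases mul_eq_zero.1 hX with hX | hX
      · exact ⟨1, shift h3 hs hpn h hxX (by rw [hX, map_zero]) (zero_pt hn0) (e81 h3)⟩
      · have e3 : (PadicInt.toZMod X - (7 + 4 * PadicInt.toZMod s)) *
            (PadicInt.toZMod X - (7 - 4 * PadicInt.toZMod s)) = 0 := by
          linear_combination hX - 16 * hsz
        rcases mul_eq_zero.1 e3 with e4 | e4
        · refine ⟨2, shift h3 hs hpn h hxX ?_ (nT 1 e1) (dT 1 e1)⟩
          simp only [map_add, map_mul, map_one, map_ofNat]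
          linear_combination e4
        · refine ⟨3, shift h3 hs hpn h hxX ?_ (nT (-1) e2) (dT (-1) e2)⟩
          simp only [map_add, map_mul, map_one, map_ofNat, map_neg]
          linear_combination e4
    · refine ⟨0, ?_⟩
      have : T 0 = 0 := rfl
      rw [this, add_zero, mem_E0, sing_ram h3 hN1 h]
      exact hx
  · intro i j hij
    by_contra hne
    have h1 : T i + T j ≠ 0 := by
      intro h
      apply hne
      apply hTinj
      have h2 := hT2 j
      have h3 : T i = -T j := eq_neg_of_add_eq_zero_left h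
      have h4 : T j = -T j := eq_neg_of_add_eq_zero_left h2
      rw [h3, ← h4]
    have h2 : (T i + T j) + (T i + T j) = 0 := by
      have e : (T i + T j) + (T i + T j) = (T i + T i) + (T j + T j) := by abel
      rw [e, hT2, hT2, add_zero]
    exact tors_sing h3 hs hpn h1 h2 hij

end ram

/-- **SN-TE**: the Tamagawa numbers of `WE n` -/
theorem t_TE : S_TE := by
  rintro n ⟨hs, hn⟩ p hp
  have hn0 : n ≠ 0 := hs.ne_zero
  constructor
  · apply final
    unfold cE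
    by_cases h3 : p = 3
    · subst h3
      rw [if_pos rfl]
      exact three (by omega)
    rw [if_neg h3]
    by_cases hpn : p ∣ n
    · rw [if_pos hpn]
      have h2 : p ≠ 2 := by
        rintro rfl
        omega
      by_cases hsq : IsSquare (-2 : ZMod p)
      · rw [if_pos hsq]
        exact ram_four h2 h3 hs hpn hsq
      · rw [if_neg hsq]
        exact ram_two h2 h3 hs hpn hsq
    · rw [if_neg hpn]
      by_cases h2 : p = 2
      · subst h2
        exact two (by omega)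
      · apply t_TGOOD
        rw [Delta]
        intro hd
        have hpp : Prime (p : ℤ) := Nat.prime_iff_prime_int.1 hp.out
        rcases hpp.dvd_or_dvd hd with h | h
        · have e1 : (-13436928 : ℤ) = -(2 ^ 11 * 3 ^ 8) := by norm_num
          rw [e1, dvd_neg] at h
          rcases hpp.dvd_or_dvd h with h | h
          · have := hpp.dvd_of_dvd_pow h
            have h5 : p ∣ 2 := by exact_mod_cast this
            exact h2 ((Nat.prime_dvd_prime_iff_eq hp.out Nat.prime_two).1 h5)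
          · have := hpp.dvd_of_dvd_pow h
            have h5 : p ∣ 3 := by exact_mod_cast this
            exact h3 ((Nat.prime_dvd_prime_iff_eq hp.out Nat.prime_three).1 h5)
        · have := hpp.dvd_of_dvd_pow h
          exact hpn (by exact_mod_cast this)
  · intro hd
    rw [Delta] at hd
    unfold cE
    have h3 : p ≠ 3 := by
      rintro rfl
      apply hd
      push_cast
      exact Dvd.dvd.mul_right (by norm_num) _
    have hpn : ¬ p ∣ n := by
      intro h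
      apply hd
      apply Dvd.dvd.mul_left
      exact Dvd.dvd.pow (by exact_mod_cast h) (by norm_num)
    rw [if_neg h3, if_neg hpn]

end Pool.Agent.N87.SN.TE
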